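import Pool.Agent.Helper32.AG.Goals

/-!
Packet AG-COP: coprime action of a commuting pair.
-/

namespace Pool.Agent.Helper17.AG

universe u

open scoped commutatorElement

section Abs

variable {A : Type u} [AddCommGroup A]

/-- The norm of an endomorphism. -/
noncomputable def nm (f : AddMonoid.End A) (m : ℕ) : AddMonoid.End A :=
  ∑ i ∈ Finset.range m, f ^ i

theorem nm_apply (f : AddMonoid.End A) (m : ℕ) (a : A) :
    nm f m a = ∑ i ∈ Finset.range m, (f ^ i) a := by
  unfold nm
  exact AddMonoidHom.finsetSum_apply _ _ _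

theorem sub_pow_mem (f : AddMonoid.End A) (W : AddSubgroup A) (h : ∀ a, a - f a ∈ W) (i : ℕ)
    (a : A) : a - (f ^ i) a ∈ W := by
  induction i with
  | zero =>
    have : (f ^ 0) a = a := by rw [pow_zero]; rfl
    rw [this, sub_self]
    exact W.zero_mem
  | succ i ih =>
    have h1 : (f ^ (i + 1)) a = f ((f ^ i) a) := by rw [pow_succ']; rfl
    have h2 := h ((f ^ i) a)
    rw [h1]
    have := W.add_mem ih h2
    rwa [sub_add_sub_cancel] at this

theorem nm_sub_mem (f : AddMonoid.End A) (W : AddSubgroup A) (h : ∀ a, a - f a ∈ W) (m : ℕ)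
    (a : A) : m • a - nm f m a ∈ W := by
  rw [nm_apply]
  have h1 : m • a = ∑ _i ∈ Finset.range m, a := by
    rw [Finset.sum_const, Finset.card_range]
  rw [h1, ← Finset.sum_sub_distrib]
  exact W.sum_mem fun i _ => sub_pow_mem f W h i a

theorem nm_fix (f : AddMonoid.End A) (m : ℕ) (a : A) (h : f a = a) : nm f m a = m • a := by
  have hp : ∀ i : ℕ, (f ^ i) a = a := by
    intro i
    induction i with
    | zero => rw [pow_zero]; rfl
    | succ i ih =>
      have h1 : (f ^ (i + 1)) a = f ((f ^ i) a) := by rw [pow_succ']; rfl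
      rw [h1, ih, h]
  rw [nm_apply, Finset.sum_congr rfl (fun i _ => hp i), Finset.sum_const, Finset.card_range]

theorem abs_main [Finite A] (f g : AddMonoid.End A) (m n : ℕ) (hf : f ^ m = 1) (hg : g ^ n = 1)
    (hfg : f * g = g * f) (hc : (m * n).Coprime (Nat.card A))
    (W C : AddSubgroup A) (hW : W = AddSubgroup.closure {a | ∃ v, a = v - f v ∨ a = v - g v})
    (hC : ∀ a, a ∈ C ↔ f a = a ∧ g a = a) : Nat.card A = Nat.card W * Nat.card C := by
  have hcf : Commute f g := hfg
  have e1 : (f - 1) * nm f m = 0 := by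
    unfold nm
    rw [mul_geom_sum, hf, sub_self]
  have e2 : nm f m * (f - 1) = 0 := by
    unfold nm
    rw [geom_sum_mul, hf, sub_self]
  have e3 : (g - 1) * nm g n = 0 := by
    unfold nm
    rw [mul_geom_sum, hg, sub_self]
  have e4 : nm g n * (g - 1) = 0 := by
    unfold nm
    rw [geom_sum_mul, hg, sub_self]
  have hgn : Commute f (nm g n) := by
    unfold nm
    exact Commute.sum_right _ _ _ fun i _ => hcf.pow_right i
  have hfn : Commute g (nm f m) := by
    unfold nm
    exact Commute.sum_right _ _ _ fun i _ => hcf.symm.pow_right i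
  set N : AddMonoid.End A := nm f m * nm g n with hN
  have hNa : ∀ a, N a = nm f m (nm g n a) := fun a => rfl
  -- images are fixed
  have h1 : ∀ a, f (N a) = N a := by
    intro a
    have h : (f - 1) * N = 0 := by rw [hN, ← mul_assoc, e1, zero_mul]
    have h' : ((f - 1) * N) a = 0 := by rw [h]; rfl
    have h'' : f (N a) - N a = 0 := h'
    exact sub_eq_zero.mp h''
  have h2 : ∀ a, g (N a) = N a := by
    intro a
    have h : (g - 1) * N = 0 := by
      have hc1 : Commute (g - 1) (nm f m) := hfn.sub_left (Commute.one_left _)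
      rw [hN, ← mul_assoc, hc1.eq, mul_assoc, e3, mul_zero]
    have h' : ((g - 1) * N) a = 0 := by rw [h]; rfl
    have h'' : g (N a) - N a = 0 := h'
    exact sub_eq_zero.mp h''
  -- the norm kills W
  have h3 : ∀ a, N (a - f a) = 0 := by
    intro a
    have h : N * (f - 1) = 0 := by
      have hc1 : Commute (f - 1) (nm g n) := hgn.sub_left (Commute.one_left _)
      rw [hN, mul_assoc, ← hc1.eq, ← mul_assoc, e2, zero_mul]
    have h' : (N * (f - 1)) a = 0 := by rw [h]; rfl
    have h'' : N (f a - a) = 0 := h'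
    rw [map_sub, sub_eq_zero] at h''
    rw [map_sub, h'', sub_self]
  have h4 : ∀ a, N (a - g a) = 0 := by
    intro a
    have h : N * (g - 1) = 0 := by rw [hN, mul_assoc, e4, mul_zero]
    have h' : (N * (g - 1)) a = 0 := by rw [h]; rfl
    have h'' : N (g a - a) = 0 := h'
    rw [map_sub, sub_eq_zero] at h''
    rw [map_sub, h'', sub_self]
  -- the norm on fixed points
  have h5 : ∀ a, f a = a → g a = a → N a = (m * n) • a := by
    intro a ha hb
    rw [hNa, nm_fix g n a hb, map_nsmul, nm_fix f m a ha, ← mul_smul, mul_comm]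
  -- congruence
  have hWf : ∀ a, a - f a ∈ W := by
    intro a
    rw [hW]
    exact AddSubgroup.subset_closure ⟨a, Or.inl rfl⟩
  have hWg : ∀ a, a - g a ∈ W := by
    intro a
    rw [hW]
    exact AddSubgroup.subset_closure ⟨a, Or.inr rfl⟩
  have h6 : ∀ a, (m * n) • a - N a ∈ W := by
    intro a
    have ha := nm_sub_mem g W hWg n a
    have hb := nm_sub_mem f W hWf m (nm g n a)
    have hd := W.nsmul_mem ha m
    rw [smul_sub] at hd
    have := W.add_mem hd hb
    rw [sub_add_sub_cancel] at this
    rw [mul_smul]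
    exact this
  -- an inverse of m * n
  obtain ⟨k, hk⟩ : ∃ k : ℕ, ∀ a : A, k • ((m * n) • a) = a := by
    obtain ⟨k, -, hk⟩ := Nat.exists_mul_mod_eq_of_coprime 1 hc Nat.card_pos.ne'
    refine ⟨k, fun a => ?_⟩
    rw [← mul_smul, mul_comm k, ← mod_natCard_nsmul, hk, mod_natCard_nsmul, one_smul]
  have hker : N.ker = W := by
    apply le_antisymm
    · intro a ha
      have ha' : N a = 0 := ha
      have := h6 a
      rw [ha', sub_zero] at this
      have := W.nsmul_mem this k
      rwa [hk] at this
    · rw [hW, AddSubgroup.closure_le]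
      rintro a ⟨v, rfl | rfl⟩
      · exact h3 v
      · exact h4 v
  have hran : N.range = C := by
    apply le_antisymm
    · rintro _ ⟨a, rfl⟩
      exact (hC _).2 ⟨h1 a, h2 a⟩
    · intro c hc'
      have hcc := (hC c).1 hc'
      refine ⟨k • c, ?_⟩
      have h7 : N (k • c) = c := by
        rw [map_nsmul, h5 c hcc.1 hcc.2, hk]
      exact h7
  have := AddSubgroup.card_mul_index N.ker
  rw [AddSubgroup.index_ker, hran, hker] at this
  exact this.symm

end Abs

open Pool.Agent.Helper32.AG

theorem cop : CopStmt.{u} := by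
  intro G _ _ p hp V _ hV hab x y m n hxy hm hn hm0 hn0 hx hy
  let _ : CommGroup V := { (inferInstance : Group V) with
    mul_comm := fun a b => Subtype.ext (hab a a.2 b b.2) }
  -- the two automorphisms
  let f : AddMonoid.End (Additive V) := MonoidHom.toAdditive (MulAut.conjNormal x : MulAut V).toMonoidHom
  let g : AddMonoid.End (Additive V) := MonoidHom.toAdditive (MulAut.conjNormal y : MulAut V).toMonoidHom
  have hfa : ∀ v : V, (((f (Additive.ofMul v)).toMul : V) : G) = x * v * x⁻¹ := by
    intro v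
    exact MulAut.conjNormal_apply x v
  have hga : ∀ v : V, (((g (Additive.ofMul v)).toMul : V) : G) = y * v * y⁻¹ := by
    intro v
    exact MulAut.conjNormal_apply y v
  have hfp : ∀ (k : ℕ) (v : V), ((((f ^ k) (Additive.ofMul v)).toMul : V) : G) =
      x ^ k * v * (x ^ k)⁻¹ := by
    intro k
    induction k with
    | zero => intro v; simp
    | succ k ih =>
      intro v
      have h1 : (f ^ (k + 1)) (Additive.ofMul v) = f ((f ^ k) (Additive.ofMul v)) := by
        rw [pow_succ']; rfl
      have h2 := hfa ((f ^ k) (Additive.ofMul v)).toMul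
      rw [h1]
      rw [ofMul_toMul] at h2
      rw [h2, ih v, pow_succ']
      group
  have hgp : ∀ (k : ℕ) (v : V), ((((g ^ k) (Additive.ofMul v)).toMul : V) : G) =
      y ^ k * v * (y ^ k)⁻¹ := by
    intro k
    induction k with
    | zero => intro v; simp
    | succ k ih =>
      intro v
      have h1 : (g ^ (k + 1)) (Additive.ofMul v) = g ((g ^ k) (Additive.ofMul v)) := by
        rw [pow_succ']; rfl
      have h2 := hga ((g ^ k) (Additive.ofMul v)).toMul
      rw [h1]
      rw [ofMul_toMul] at h2
      rw [h2, ih v, pow_succ']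
      group
  have hext : ∀ a b : Additive V, ((a.toMul : V) : G) = ((b.toMul : V) : G) → a = b := by
    intro a b h
    exact Additive.toMul.injective (Subtype.ext h)
  have hf : f ^ m = 1 := by
    refine AddMonoidHom.ext fun a => hext _ _ ?_
    have := hfp m a.toMul
    rw [hx _ a.toMul.2, mul_assoc, mul_inv_cancel, mul_one] at this
    exact this
  have hg : g ^ n = 1 := by
    refine AddMonoidHom.ext fun a => hext _ _ ?_
    have := hgp n a.toMul
    rw [hy _ a.toMul.2, mul_assoc, mul_inv_cancel, mul_one] at this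
    exact this
  have hfg : f * g = g * f := by
    refine AddMonoidHom.ext fun a => hext _ _ ?_
    have h1 := hfa (g a).toMul
    have h2 := hga (f a).toMul
    have h3 := hfa a.toMul
    have h4 := hga a.toMul
    rw [ofMul_toMul] at h1 h2 h3 h4
    refine h1.trans (Eq.trans ?_ h2.symm)
    rw [h3, h4]
    -- x y v y⁻¹ x⁻¹ = y x v x⁻¹ y⁻¹
    have hz : ⁅x, y⁆ * (y * x * (a.toMul : V) * x⁻¹ * y⁻¹) =
        (y * x * (a.toMul : V) * x⁻¹ * y⁻¹) * ⁅x, y⁆ := by
      apply hab _ hxy
      have : y * x * ((a.toMul : V) : G) * x⁻¹ * y⁻¹ = (y * x) * (a.toMul : V) * (y * x)⁻¹ := by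
        group
      rw [this]
      exact Subgroup.Normal.conj_mem inferInstance _ a.toMul.2 _
    have hz2 : x * (y * ((a.toMul : V) : G) * y⁻¹) * x⁻¹ =
        ⁅x, y⁆ * (y * x * (a.toMul : V) * x⁻¹ * y⁻¹) * ⁅x, y⁆⁻¹ := by
      rw [commutatorElement_def]
      group
    rw [hz2, hz, mul_inv_cancel_right]
    group
  have hcop : (m * n).Coprime (Nat.card (Additive V)) := by
    have hcard : Nat.card (Additive V) = Nat.card V := rfl
    rw [hcard]
    have : Fact p.Prime := ⟨hp⟩
    obtain ⟨k, hk⟩ := IsPGroup.iff_card.mp hV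
    rw [hk]
    apply Nat.Coprime.pow_right
    rw [Nat.coprime_comm]
    apply Nat.Coprime.mul_right
    · exact (Nat.Prime.coprime_iff_not_dvd hp).2 hm
    · exact (Nat.Prime.coprime_iff_not_dvd hp).2 hn
  -- the subgroups of V
  let W : AddSubgroup (Additive V) := AddSubgroup.closure {a | ∃ v, a = v - f v ∨ a = v - g v}
  let C : AddSubgroup (Additive V) :=
    { carrier := {a | f a = a ∧ g a = a}
      add_mem' := by
        rintro a b ⟨h1, h2⟩ ⟨h3, h4⟩
        exact ⟨by rw [map_add, h1, h3], by rw [map_add, h2, h4]⟩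
      zero_mem' := ⟨map_zero _, map_zero _⟩
      neg_mem' := by
        rintro a ⟨h1, h2⟩
        exact ⟨by rw [map_neg, h1], by rw [map_neg, h2]⟩ }
  have hmain := abs_main f g m n hf hg hfg hcop W C rfl (fun a => Iff.rfl)
  have hcardV : Nat.card (Additive V) = Nat.card V := rfl
  rw [hcardV] at hmain
  -- the sets in G
  have hcx : ∀ v : V, (((Additive.ofMul v - f (Additive.ofMul v)).toMul : V) : G) = ⁅(v : G), x⁆ := by
    intro v
    have h1 : (((Additive.ofMul v - f (Additive.ofMul v)).toMul : V) : G) =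
        (v : G) * (((f (Additive.ofMul v)).toMul : V) : G)⁻¹ := by
      rw [sub_eq_add_neg]
      rfl
    rw [h1, hfa, commutatorElement_def]
    group
  have hcy : ∀ v : V, (((Additive.ofMul v - g (Additive.ofMul v)).toMul : V) : G) = ⁅(v : G), y⁆ := by
    intro v
    have h1 : (((Additive.ofMul v - g (Additive.ofMul v)).toMul : V) : G) =
        (v : G) * (((g (Additive.ofMul v)).toMul : V) : G)⁻¹ := by
      rw [sub_eq_add_neg]
      rfl
    rw [h1, hga, commutatorElement_def]
    group
  let S : Subgroup G :=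
    { carrier := {a | ∃ b : Additive V, b ∈ W ∧ ((b.toMul : V) : G) = a}
      mul_mem' := by
        rintro a a' ⟨b, hb, rfl⟩ ⟨b', hb', rfl⟩
        exact ⟨b + b', W.add_mem hb hb', rfl⟩
      one_mem' := ⟨0, W.zero_mem, rfl⟩
      inv_mem' := by
        rintro a ⟨b, hb, rfl⟩
        exact ⟨-b, W.neg_mem hb, rfl⟩ }
  have hWS : Wc V x y ≤ S := by
    unfold Wc
    rw [Subgroup.closure_le]
    rintro a ⟨v, hv, rfl | rfl⟩
    · exact ⟨_, AddSubgroup.subset_closure ⟨Additive.ofMul ⟨v, hv⟩, Or.inl rfl⟩, hcx ⟨v, hv⟩⟩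
    · exact ⟨_, AddSubgroup.subset_closure ⟨Additive.ofMul ⟨v, hv⟩, Or.inr rfl⟩, hcy ⟨v, hv⟩⟩
  have hWV : Wc V x y ≤ V := by
    intro a ha
    obtain ⟨b, -, rfl⟩ := hWS ha
    exact b.toMul.2
  let K : AddSubgroup (Additive V) :=
    { carrier := {a | ((a.toMul : V) : G) ∈ Wc V x y}
      add_mem' := by
        intro a b ha hb
        exact (Wc V x y).mul_mem ha hb
      zero_mem' := (Wc V x y).one_mem
      neg_mem' := by
        intro a ha
        exact (Wc V x y).inv_mem ha }
  have hWK : W ≤ K := by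
    change AddSubgroup.closure _ ≤ K
    rw [AddSubgroup.closure_le]
    rintro a ⟨v, rfl | rfl⟩
    · have h1 : ⁅((v.toMul : V) : G), x⁆ ∈ Wc V x y :=
        Subgroup.subset_closure ⟨_, v.toMul.2, Or.inl rfl⟩
      rw [← hcx] at h1
      exact h1
    · have h1 : ⁅((v.toMul : V) : G), y⁆ ∈ Wc V x y :=
        Subgroup.subset_closure ⟨_, v.toMul.2, Or.inr rfl⟩
      rw [← hcy] at h1
      exact h1
  have hiff : ∀ v : V, (v : G) ∈ Wc V x y ↔ Additive.ofMul v ∈ W := by
    intro v
    constructor
    · intro h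
      obtain ⟨b, hb, hbv⟩ := hWS h
      have : b = Additive.ofMul v := hext _ _ hbv
      rwa [← this]
    · intro h
      exact hWK h
  have hWc : Nat.card (Wc V x y) = Nat.card W :=
    Nat.card_congr
      { toFun := fun a => ⟨Additive.ofMul ⟨a, hWV a.2⟩, (hiff _).1 a.2⟩
        invFun := fun b => ⟨(b.1.toMul : V), (hiff _).2 b.2⟩
        left_inv := fun a => rfl
        right_inv := fun b => rfl }
  have hiff' : ∀ v : V, (v : G) ∈ Cc V x y ↔ Additive.ofMul v ∈ C := by
    intro v
    have h1 : (v : G) ∈ Cc V x y ↔ x * v = v * x ∧ y * v = v * y := by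
      unfold Cc
      rw [Subgroup.mem_inf, Subgroup.mem_centralizer_iff]
      constructor
      · rintro ⟨-, h⟩
        exact ⟨h x (by simp), h y (by simp)⟩
      · rintro ⟨h1, h2⟩
        refine ⟨v.2, ?_⟩
        intro h hh
        rcases hh with rfl | hh
        · exact h1
        · rw [Set.mem_singleton_iff] at hh
          rw [hh]
          exact h2
    have h2 : Additive.ofMul v ∈ C ↔ f (Additive.ofMul v) = Additive.ofMul v ∧
        g (Additive.ofMul v) = Additive.ofMul v := Iff.rfl
    rw [h1, h2]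
    constructor
    · rintro ⟨h3, h4⟩
      constructor
      · refine hext _ _ ((hfa v).trans ?_)
        rw [h3, mul_inv_cancel_right]
        rfl
      · refine hext _ _ ((hga v).trans ?_)
        rw [h4, mul_inv_cancel_right]
        rfl
    · rintro ⟨h3, h4⟩
      constructor
      · have h5 := hfa v
        rw [h3] at h5
        have h6 : (v : G) = x * v * x⁻¹ := h5
        rw [eq_mul_inv_iff_mul_eq] at h6
        exact h6.symm
      · have h5 := hga v
        rw [h4] at h5
        have h6 : (v : G) = y * v * y⁻¹ := h5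
        rw [eq_mul_inv_iff_mul_eq] at h6
        exact h6.symm
  have hCV : Cc V x y ≤ V := inf_le_left
  have hCc : Nat.card (Cc V x y) = Nat.card C :=
    Nat.card_congr
      { toFun := fun a => ⟨Additive.ofMul ⟨a, hCV a.2⟩, (hiff' _).1 a.2⟩
        invFun := fun b => ⟨(b.1.toMul : V), (hiff' _).2 b.2⟩
        left_inv := fun a => rfl
        right_inv := fun b => rfl }
  rw [hWc, hCc]
  exact hmain

end Pool.Agent.Helper17.AG
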